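import Pool.Agent.Q255.FG.Stm
import Pool.Agent.Erdos456.Mertens

/-!
# Project FG (helper255): job A1
-/

set_option autoImplicit false

open MeasureTheory Finset

namespace Pool.Agent.Q211.FG

open Pool.Agent.Q255.FG

/-- the telescoping inequality -/
lemma tel {α : ℝ} (hα : 0 < α) {n : ℕ} (hn : 1 ≤ n) :
    ((n + 1 : ℕ) : ℝ) ^ (-(1 + α)) ≤ ((n : ℝ) ^ (-α) - ((n + 1 : ℕ) : ℝ) ^ (-α)) / α := by
  have hn0 : (0 : ℝ) < n := by exact_mod_cast hn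
  have hn1 : (0 : ℝ) < ((n + 1 : ℕ) : ℝ) := by positivity
  rw [le_div_iff₀ hα]
  have e1 : ((n + 1 : ℕ) : ℝ) ^ (-(1 + α)) = ((n + 1 : ℕ) : ℝ) ^ (-α) * ((n + 1 : ℕ) : ℝ)⁻¹ := by
    rw [show -(1 + α) = -α + (-1 : ℝ) by ring, Real.rpow_add hn1, Real.rpow_neg_one]
  have e2 : (n : ℝ) ^ (-α) = ((n + 1 : ℕ) : ℝ) ^ (-α) * ((n : ℝ) / ((n + 1 : ℕ) : ℝ)) ^ (-α) := by
    rw [← Real.mul_rpow hn1.le (by positivity)]
    congr 1
    field_simp
  have e3 : 1 + α * ((n + 1 : ℕ) : ℝ)⁻¹ ≤ ((n : ℝ) / ((n + 1 : ℕ) : ℝ)) ^ (-α) := by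
    have hq : (0 : ℝ) < (n : ℝ) / ((n + 1 : ℕ) : ℝ) := by positivity
    rw [Real.rpow_def_of_pos hq]
    have h1 : Real.log ((n : ℝ) / ((n + 1 : ℕ) : ℝ)) ≤ (n : ℝ) / ((n + 1 : ℕ) : ℝ) - 1 :=
      Real.log_le_sub_one_of_pos hq
    have h2 : (n : ℝ) / ((n + 1 : ℕ) : ℝ) - 1 = -((n + 1 : ℕ) : ℝ)⁻¹ := by
      field_simp
      push_cast
      ring
    rw [h2] at h1
    have h3 : α * ((n + 1 : ℕ) : ℝ)⁻¹ ≤ Real.log ((n : ℝ) / ((n + 1 : ℕ) : ℝ)) * -α := by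
      nlinarith
    have h4 := Real.add_one_le_exp (Real.log ((n : ℝ) / ((n + 1 : ℕ) : ℝ)) * -α)
    linarith
  rw [e2, e1]
  have h5 : 0 < ((n + 1 : ℕ) : ℝ) ^ (-α) := Real.rpow_pos_of_pos hn1 _
  nlinarith [mul_le_mul_of_nonneg_left e3 h5.le]

/-- sums of a block -/
lemma block {α : ℝ} (hα : 0 < α) {m : ℕ} (hm : 1 ≤ m) (k : ℕ) :
    ∑ n ∈ Ioc m (m + k), (n : ℝ) ^ (-(1 + α)) ≤ ((m : ℝ) ^ (-α) - ((m + k : ℕ) : ℝ) ^ (-α)) / α := by
  induction k with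
  | zero => simp
  | succ k ih =>
    rw [← add_assoc, Finset.sum_Ioc_succ_top (by omega)]
    have := tel hα (n := m + k) (by omega)
    calc _ ≤ ((m : ℝ) ^ (-α) - ((m + k : ℕ) : ℝ) ^ (-α)) / α +
        (((m + k : ℕ) : ℝ) ^ (-α) - ((m + k + 1 : ℕ) : ℝ) ^ (-α)) / α := add_le_add ih this
      _ = _ := by rw [← add_div]; congr 1; ring

lemma tail {α : ℝ} (hα : 0 < α) {m : ℕ} (hm : 1 ≤ m) (A : Finset ℕ) (hA : ∀ n ∈ A, m < n) :
    ∑ n ∈ A, (n : ℝ) ^ (-(1 + α)) ≤ (m : ℝ) ^ (-α) / α := by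
  have h1 : A ⊆ Ioc m (m + A.sup id) := by
    intro n hn
    rw [Finset.mem_Ioc]
    exact ⟨hA n hn, (Finset.le_sup (f := id) hn).trans (Nat.le_add_left _ _)⟩
  refine (Finset.sum_le_sum_of_subset_of_nonneg h1 fun n _ _ => Real.rpow_nonneg (Nat.cast_nonneg _) _).trans ?_
  refine (block hα hm _).trans ?_
  gcongr
  linarith [Real.rpow_nonneg (Nat.cast_nonneg (α := ℝ) (m + A.sup id)) (-α)]

/-- all positive integers -/
lemma tail1 {α : ℝ} (hα : 0 < α) (A : Finset ℕ) : ∑ n ∈ A, (n : ℝ) ^ (-(1 + α)) ≤ 1 + 1 / α := by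
  classical
  have h0 : ∑ n ∈ A, (n : ℝ) ^ (-(1 + α)) ≤ ∑ n ∈ insert 1 (A.filter fun n => 1 < n), (n : ℝ) ^ (-(1 + α)) := by
    have e : ∑ n ∈ A, (n : ℝ) ^ (-(1 + α)) = ∑ n ∈ A.filter (fun n => n ≠ 0), (n : ℝ) ^ (-(1 + α)) := by
      symm
      refine Finset.sum_subset (Finset.filter_subset _ _) fun n hn hn' => ?_
      have : n = 0 := by
        by_contra h
        exact hn' (Finset.mem_filter.2 ⟨hn, h⟩)
      rw [this, Nat.cast_zero, Real.zero_rpow (by linarith)]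
    rw [e]
    refine Finset.sum_le_sum_of_subset_of_nonneg ?_ fun n _ _ => Real.rpow_nonneg (Nat.cast_nonneg _) _
    intro n hn
    rw [Finset.mem_filter] at hn
    rw [Finset.mem_insert, Finset.mem_filter]
    rcases Nat.lt_or_ge 1 n with h | h
    · exact Or.inr ⟨hn.1, h⟩
    · exact Or.inl (by omega)
  refine h0.trans ?_
  rw [Finset.sum_insert (by simp)]
  have h1 := tail hα (m := 1) le_rfl (A.filter fun n => 1 < n) fun n hn => (Finset.mem_filter.1 hn).2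
  simp only [Nat.cast_one, Real.one_rpow] at h1 ⊢
  linarith

/-- the powers as a multiplicative map -/
noncomputable def pw (α : ℝ) : ℕ →* ℝ where
  toFun n := (n : ℝ) ^ (-(1 + α))
  map_one' := by simp
  map_mul' m n := by
    push_cast
    exact Real.mul_rpow (Nat.cast_nonneg _) (Nat.cast_nonneg _)

lemma small_pw {α : ℝ} (hα : 0 < α) {p : ℕ} (hp : p.Prime) : (p : ℝ) ^ (-(1 + α)) < 1 :=
  Real.rpow_lt_one_of_one_lt_of_neg (by exact_mod_cast hp.one_lt) (by linarith)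

lemma part1 (P : Finset ℕ) (α : ℝ) (hP : ∀ p ∈ P, p.Prime) (hα : 0 < α) :
    ∑ p ∈ P, (p : ℝ) ^ (-(1 + α)) ≤ Real.log (1 + 1 / α) := by
  classical
  have h1 := (EulerProduct.summable_and_hasSum_factoredNumbers_prod_filter_prime_geometric (f := pw α)
    (fun {p} hp => by
      have h : ‖pw α p‖ = (p : ℝ) ^ (-(1 + α)) := Real.norm_of_nonneg (Real.rpow_nonneg (Nat.cast_nonneg _) _)
      rw [h]
      exact small_pw hα hp) P).2
  rw [Finset.filter_true_of_mem hP] at h1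
  have h2 : ∏ p ∈ P, (1 - pw α p)⁻¹ ≤ 1 + 1 / α := by
    refine hasSum_le_of_sum_le h1 fun s => ?_
    have e1 : ∑ i ∈ s, pw α (i : ℕ) = ∑ n ∈ s.map (Function.Embedding.subtype _), (n : ℝ) ^ (-(1 + α)) := by
      rw [Finset.sum_map]
      rfl
    rw [e1]
    exact tail1 hα _
  have hpos : ∀ p ∈ P, 0 < 1 - (p : ℝ) ^ (-(1 + α)) := fun p hp => sub_pos.2 (small_pw hα (hP p hp))
  have h3 : ∑ p ∈ P, (p : ℝ) ^ (-(1 + α)) ≤ Real.log (∏ p ∈ P, (1 - pw α p)⁻¹) := by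
    change _ ≤ Real.log (∏ p ∈ P, (1 - (p : ℝ) ^ (-(1 + α)))⁻¹)
    rw [Real.log_prod fun p hp => (inv_ne_zero (hpos p hp).ne')]
    refine Finset.sum_le_sum fun p hp => ?_
    have h4 := Real.log_le_sub_one_of_pos (hpos p hp)
    rw [Real.log_inv]
    linarith
  refine h3.trans (Real.log_le_log ?_ h2)
  exact Finset.prod_pos fun p hp => inv_pos.2 (hpos p hp)

/-- Mertens for real arguments -/
lemma mert : ∃ C : ℝ, ∀ x : ℝ, 2 ≤ x →
    |∑ p ∈ (Icc 1 ⌊x⌋₊).filter Nat.Prime, (1 / (p : ℝ)) - Real.log (Real.log x)| ≤ C := by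
  obtain ⟨C, hC⟩ := Pool.Agent.Erdos456.Mert.mertens_inv
  have hC0 : 0 ≤ C := (abs_nonneg _).trans (hC 3 le_rfl)
  refine ⟨C + 3, fun x hx => ?_⟩
  have hfl : (⌊x⌋₊ : ℝ) ≤ x := Nat.floor_le (by linarith)
  have hfl' : x < ⌊x⌋₊ + 1 := Nat.lt_floor_add_one x
  have h2f : 2 ≤ ⌊x⌋₊ := Nat.le_floor (by exact_mod_cast hx)
  have h2f' : (2 : ℝ) ≤ ⌊x⌋₊ := by exact_mod_cast h2f
  have l2 : (1 / 2 : ℝ) < Real.log 2 := by have := Real.log_two_gt_d9; linarith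
  have l2' : Real.log 2 < 1 := by have := Real.log_two_lt_d9; linarith
  have hlf : Real.log 2 ≤ Real.log ⌊x⌋₊ := Real.log_le_log (by norm_num) h2f'
  have hlx : Real.log ⌊x⌋₊ ≤ Real.log x := Real.log_le_log (by linarith) hfl
  have hlx2 : Real.log x ≤ 2 * Real.log ⌊x⌋₊ := by
    have h1 : Real.log x ≤ Real.log (2 * ⌊x⌋₊) := Real.log_le_log (by linarith) (by linarith)
    rw [Real.log_mul (by norm_num) (by positivity)] at h1
    linarith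
  have hll : Real.log (Real.log ⌊x⌋₊) ≤ Real.log (Real.log x) := Real.log_le_log (by linarith) hlx
  have hll2 : Real.log (Real.log x) ≤ Real.log 2 + Real.log (Real.log ⌊x⌋₊) := by
    rw [← Real.log_mul (by norm_num) (by linarith)]
    exact Real.log_le_log (by linarith) hlx2
  rcases Nat.lt_or_ge ⌊x⌋₊ 3 with h3 | h3
  · have e : ⌊x⌋₊ = 2 := by omega
    have e' : ((2 : ℕ) : ℝ) = 2 := by norm_num
    rw [e, e'] at hll hll2
    rw [e]
    have e2 : ∑ p ∈ (Icc 1 2).filter Nat.Prime, (1 / (p : ℝ)) = 1 / 2 := by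
      have : (Icc 1 2).filter Nat.Prime = {2} := by decide
      rw [this]
      simp
    rw [e2]
    have h4 : -1 ≤ Real.log (Real.log (2 : ℝ)) := by
      have h5 := Real.log_le_log (by norm_num : (0 : ℝ) < 1 / 2) l2.le
      have h6 : Real.log (1 / 2 : ℝ) = -Real.log 2 := by
        rw [one_div, Real.log_inv]
      linarith
    have h5 : Real.log (Real.log (2 : ℝ)) ≤ 0 := by
      refine Real.log_nonpos ?_ ?_
      · linarith
      · exact l2'.le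
    rw [abs_le]
    constructor <;> linarith
  · have h4 := abs_le.1 (hC _ h3)
    rw [abs_le]
    constructor <;> linarith [h4.1, h4.2]

lemma part2 : ∃ C : ℝ, ∀ x y : ℝ, 2 ≤ y → y ≤ x →
    |∑ p ∈ (Icc 1 ⌊x⌋₊).filter (fun p : ℕ => p.Prime ∧ y < (p : ℝ)), (1 / (p : ℝ)) -
      (Real.log (Real.log x) - Real.log (Real.log y))| ≤ C := by
  classical
  obtain ⟨C, hC⟩ := mert
  refine ⟨2 * C, fun x y hy hyx => ?_⟩
  have hx := hC x (by linarith)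
  have hy' := hC y hy
  have e : ∑ p ∈ (Icc 1 ⌊x⌋₊).filter Nat.Prime, (1 / (p : ℝ)) =
      ∑ p ∈ (Icc 1 ⌊y⌋₊).filter Nat.Prime, (1 / (p : ℝ)) +
        ∑ p ∈ (Icc 1 ⌊x⌋₊).filter (fun p : ℕ => p.Prime ∧ y < (p : ℝ)), (1 / (p : ℝ)) := by
    rw [← Finset.sum_union]
    · congr 1
      ext p
      simp only [Finset.mem_filter, Finset.mem_Icc, Finset.mem_union]
      have hfm : ⌊y⌋₊ ≤ ⌊x⌋₊ := Nat.floor_mono hyx
      constructor
      · rintro ⟨⟨h1, h2⟩, h3⟩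
        rcases le_or_gt (p : ℝ) y with h4 | h4
        · exact Or.inl ⟨⟨h1, Nat.le_floor h4⟩, h3⟩
        · exact Or.inr ⟨⟨h1, h2⟩, h3, h4⟩
      · rintro (⟨⟨h1, h2⟩, h3⟩ | ⟨⟨h1, h2⟩, h3, h4⟩)
        · exact ⟨⟨h1, h2.trans hfm⟩, h3⟩
        · exact ⟨⟨h1, h2⟩, h3⟩
    · rw [Finset.disjoint_left]
      intro p hp hp'
      simp only [Finset.mem_filter, Finset.mem_Icc] at hp hp'
      have := (Nat.le_floor_iff (by linarith)).1 hp.1.2
      linarith [hp'.2.2]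
  rw [e] at hx
  have a := abs_le.1 hx
  have b := abs_le.1 hy'
  rw [abs_le]
  constructor <;> linarith [a.1, a.2, b.1, b.2]

lemma half_floor {y : ℝ} (hy : 1 ≤ y) : y / 2 ≤ ⌊y⌋₊ ∧ 1 ≤ ⌊y⌋₊ := by
  have h1 : 1 ≤ ⌊y⌋₊ := Nat.le_floor (by exact_mod_cast hy)
  have h1' : (1 : ℝ) ≤ ⌊y⌋₊ := by exact_mod_cast h1
  have h2 : y < ⌊y⌋₊ + 1 := Nat.lt_floor_add_one y
  exact ⟨by linarith, h1⟩

theorem a1 : S_A1 := by
  refine ⟨part1, part2, ?_, ?_⟩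
  · intro A y hy hA
    obtain ⟨h1, h2⟩ := half_floor hy
    have h3 := tail (α := 1 / 2) (by norm_num) h2 A fun n hn => by
      have := hA n hn
      exact (Nat.floor_lt (by linarith)).2 this
    have e1 : (-(1 + 1 / 2) : ℝ) = (-(3 / 2) : ℝ) := by norm_num
    rw [e1] at h3
    refine h3.trans ?_
    have h4 : (⌊y⌋₊ : ℝ) ^ (-(1 / 2) : ℝ) ≤ (y / 2) ^ (-(1 / 2) : ℝ) :=
      Real.rpow_le_rpow_of_nonpos (by positivity) h1 (by norm_num)
    have h5 : (y / 2) ^ (-(1 / 2) : ℝ) = y ^ (-(1 / 2) : ℝ) * (2 : ℝ) ^ (1 / 2 : ℝ) := by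
      rw [Real.div_rpow (by linarith) (by norm_num), Real.rpow_neg (by norm_num : (0 : ℝ) ≤ 2), div_inv_eq_mul]
    have h6 : (2 : ℝ) ^ (1 / 2 : ℝ) ≤ 2 := by
      calc (2 : ℝ) ^ (1 / 2 : ℝ) ≤ (2 : ℝ) ^ (1 : ℝ) :=
            Real.rpow_le_rpow_of_exponent_le (by norm_num) (by norm_num)
        _ = 2 := Real.rpow_one _
    have h7 : 0 < y ^ (-(1 / 2) : ℝ) := Real.rpow_pos_of_pos (by linarith) _
    rw [h5] at h4
    rw [div_le_iff₀ (by norm_num)]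
    nlinarith
  · intro A y hy hA
    obtain ⟨h1, h2⟩ := half_floor hy
    have h3 := tail (α := 1) (by norm_num) h2 A fun n hn => by
      have := hA n hn
      exact (Nat.floor_lt (by linarith)).2 this
    have e1 : ∀ n ∈ A, (1 / (n : ℝ) ^ 2) = (n : ℝ) ^ (-(1 + 1) : ℝ) := by
      intro n hn
      have hn0 : (0 : ℝ) ≤ n := Nat.cast_nonneg _
      rw [Real.rpow_neg hn0, show (1 + 1 : ℝ) = ((2 : ℕ) : ℝ) by norm_num, Real.rpow_natCast, one_div]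
    rw [Finset.sum_congr rfl e1]
    refine h3.trans ?_
    have h1' : (0 : ℝ) < ⌊y⌋₊ := by exact_mod_cast h2
    rw [div_one, Real.rpow_neg_one, inv_eq_one_div, div_le_div_iff₀ h1' (by linarith)]
    linarith

end Pool.Agent.Q211.FG
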