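import Pool.Agent.Q255.FG.Stm

/-!
# Project FG (helper255): jobs PROD and EXPM
-/

set_option autoImplicit false

open MeasureTheory Finset ProbabilityTheory

namespace Pool.Agent.Q211.FG

open Q289.PAM Pool.Agent.Q255.RM Pool.Agent.Q255.FG

theorem prod : S_PROD := by
  intro P g hg
  classical
  have hind : iIndepFun (fun (n : ℕ) (ω : Om) => ω n) PT := by
    unfold PT
    exact iIndepFun_infinitePi (X := fun _ x => x) (fun _ => measurable_id)
  have h2 : iIndepFun (fun (i : P) (ω : Om) => ω i) PT := hind.precomp Subtype.val_injective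
  have h3 : ∫ ω, ∏ i : P, g i (ω i) ∂PT = ∏ i : P, ∫ ω, g i (ω i) ∂PT :=
    iIndepFun.integral_fun_prod_comp (X := fun (i : P) (ω : Om) => ω i) (f := fun (i : P) x => g i x) h2
      (fun i => (measurable_pi_apply _).aemeasurable)
      (fun i => (hg i i.2).aestronglyMeasurable)
  have h4 : ∀ i : P, ∫ ω, g i (ω i) ∂PT = ∫ x : UnitAddCircle, g i x := by
    intro i
    have hmp : MeasurePreserving (Function.eval (i : ℕ)) PT (volume : Measure UnitAddCircle) := by
      unfold PT
      exact measurePreserving_eval_infinitePi (fun _ => (volume : Measure UnitAddCircle)) (i : ℕ)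
    rw [← hmp.map_eq, integral_map hmp.measurable.aemeasurable]
    exact (hg i i.2).aestronglyMeasurable
  calc ∫ ω, ∏ p ∈ P, g p (ω p) ∂PT = ∫ ω, ∏ i : P, g i (ω i) ∂PT := by
        congr 1
        ext ω
        exact (Finset.prod_coe_sort P (fun p => g p (ω p))).symm
    _ = ∏ i : P, ∫ ω, g i (ω i) ∂PT := h3
    _ = ∏ i : P, ∫ x : UnitAddCircle, g i x := Finset.prod_congr rfl fun i _ => h4 i
    _ = ∏ p ∈ P, ∫ x : UnitAddCircle, g p x :=
        Finset.prod_coe_sort P (fun p => ∫ x : UnitAddCircle, g p x)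

lemma f_prime (ω : Om) {p : ℕ} (hp : p.Prime) : f ω p = ((ω p).toCircle : ℂ) := by
  unfold f
  rw [hp.primeFactors, Finset.prod_singleton, hp.factorization_self, pow_one]

lemma cont1 (w : ℂ) : Continuous fun x : UnitAddCircle => Real.exp (w * (x.toCircle : ℂ)).re := by
  have h : Continuous fun x : UnitAddCircle => (x.toCircle : ℂ) :=
    continuous_subtype_val.comp AddCircle.continuous_toCircle
  exact Real.continuous_exp.comp (Complex.continuous_re.comp (continuous_const.mul h))

lemma cont2 (w : ℂ) : Continuous fun x : UnitAddCircle => ‖1 - w * (x.toCircle : ℂ)‖ ^ 2 := by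
  have h : Continuous fun x : UnitAddCircle => (x.toCircle : ℂ) :=
    continuous_subtype_val.comp AddCircle.continuous_toCircle
  exact (continuous_const.sub (continuous_const.mul h)).norm.pow 2

lemma exp_sum_re (ω : Om) (P : Finset ℕ) (w : ℕ → ℂ) (hP : ∀ p ∈ P, p.Prime) :
    Real.exp (∑ p ∈ P, w p * f ω p).re = ∏ p ∈ P, Real.exp (w p * ((ω p).toCircle : ℂ)).re := by
  rw [Complex.re_sum, Real.exp_sum]
  exact Finset.prod_congr rfl fun p hp => by rw [f_prime ω (hP p hp)]

theorem expm (h1 : S_ONE) (h2 : S_PROD) : S_EXPM := by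
  classical
  obtain ⟨ha, hb, hc, -⟩ := h1
  refine ⟨?_, ?_, ?_⟩
  · intro P w hP
    have e1 : ∫ ω, Real.exp (∑ p ∈ P, w p * f ω p).re ∂PT =
        ∏ p ∈ P, ∫ x : UnitAddCircle, Real.exp (w p * (x.toCircle : ℂ)).re := by
      rw [← h2 P (fun p x => Real.exp (w p * (x.toCircle : ℂ)).re) fun p _ => cont1 _]
      congr 1
      ext ω
      exact exp_sum_re ω P w hP
    rw [e1, Real.exp_sum]
    refine Finset.prod_le_prod (fun p _ => (Real.exp_pos _).le) fun p _ => ?_
    refine le_trans ?_ (hb (w p))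
    set x : ℝ := ‖w p‖ ^ 2 / 4 with hx
    have hx0 : 0 ≤ x := by positivity
    have e2 : ‖w p‖ ^ 4 / 32 = x ^ 2 / 2 := by rw [hx]; ring
    rw [e2]
    have h3 : 2 * x / (x + 2) ≤ Real.log (1 + x) := Real.le_log_one_add_of_nonneg hx0
    have h4 : x - x ^ 2 / 2 ≤ 2 * x / (x + 2) := by
      rw [le_div_iff₀ (by linarith)]
      nlinarith [pow_nonneg hx0 3]
    calc Real.exp (x - x ^ 2 / 2) ≤ Real.exp (Real.log (1 + x)) := Real.exp_le_exp.2 (h4.trans h3)
      _ = 1 + x := Real.exp_log (by linarith)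
  · intro P w hP
    have e1 : ∫ ω, Real.exp (∑ p ∈ P, w p * f ω p).re ∂PT =
        ∏ p ∈ P, ∫ x : UnitAddCircle, Real.exp (w p * (x.toCircle : ℂ)).re := by
      rw [← h2 P (fun p x => Real.exp (w p * (x.toCircle : ℂ)).re) fun p _ => cont1 _]
      congr 1
      ext ω
      exact exp_sum_re ω P w fun p hp => (hP p hp).1
    rw [e1, Real.exp_sum]
    refine Finset.prod_le_prod (fun p _ => integral_nonneg fun x => (Real.exp_pos _).le) fun p hp => ?_
    exact ha (w p) (hP p hp).2
  · intro P P' w c hP hP' hd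
    set g : ℕ → UnitAddCircle → ℝ := fun p x =>
      if p ∈ P then Real.exp (w p * (x.toCircle : ℂ)).re else ‖1 - c p * (x.toCircle : ℂ)‖ ^ 2 with hg
    have hgc : ∀ p ∈ P ∪ P', Continuous (g p) := by
      intro p _
      by_cases hp : p ∈ P
      · simp only [hg, if_pos hp]; exact cont1 _
      · simp only [hg, if_neg hp]; exact cont2 _
    have hn : ∀ p ∈ P', p ∉ P := fun p hp h => (Finset.disjoint_left.1 hd h hp)
    have e1 : ∫ ω, Real.exp (∑ p ∈ P, w p * f ω p).re * ∏ p ∈ P', ‖1 - c p * f ω p‖ ^ 2 ∂PT =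
        (∏ p ∈ P, ∫ x : UnitAddCircle, Real.exp (w p * (x.toCircle : ℂ)).re) *
          ∏ p ∈ P', ∫ x : UnitAddCircle, ‖1 - c p * (x.toCircle : ℂ)‖ ^ 2 := by
      have e2 := h2 (P ∪ P') g hgc
      rw [Finset.prod_union hd] at e2
      have e3 : ∀ ω : Om, Real.exp (∑ p ∈ P, w p * f ω p).re * ∏ p ∈ P', ‖1 - c p * f ω p‖ ^ 2 =
          ∏ p ∈ P ∪ P', g p (ω p) := by
        intro ω
        rw [Finset.prod_union hd, exp_sum_re ω P w fun p hp => (hP p hp).1]
        congr 1
        · exact Finset.prod_congr rfl fun p hp => by simp only [hg, if_pos hp]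
        · exact Finset.prod_congr rfl fun p hp => by
            simp only [hg, if_neg (hn p hp)]
            rw [f_prime ω (hP' p hp)]
      simp_rw [e3]
      rw [e2]
      congr 1
      · exact Finset.prod_congr rfl fun p hp => by simp only [hg, if_pos hp]
      · exact Finset.prod_congr rfl fun p hp => by simp only [hg, if_neg (hn p hp)]
    rw [e1, Real.exp_sum]
    refine mul_le_mul ?_ ?_ ?_ ?_
    · exact Finset.prod_le_prod (fun p _ => integral_nonneg fun x => (Real.exp_pos _).le) fun p hp =>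
        ha (w p) (hP p hp).2
    · exact Finset.prod_le_prod (fun p _ => integral_nonneg fun x => by positivity) fun p _ =>
        (hc (c p)).le
    · exact Finset.prod_nonneg fun p _ => integral_nonneg fun x => by positivity
    · exact Finset.prod_nonneg fun p _ => (Real.exp_pos _).le

end Pool.Agent.Q211.FG
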