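import Pool.Agent.Q255.FG.Stm

/-!
# Project FG (helper255): job LS
-/

set_option autoImplicit false

open MeasureTheory Finset

namespace Pool.Agent.Q211.FG

open Q289.PAM Pool.Agent.Q255.RM Pool.Agent.Q255.FG

lemma int_cont {g : Om → ℝ} (hg : Continuous g) : Integrable g PT :=
  hg.integrable_of_hasCompactSupport (HasCompactSupport.of_compactSpace g)

open Classical in
/-- the tilted weight -/
noncomputable def Wt (X Y : (ℕ → ℂ) → Om → ℝ) (k s ε Λ : ℝ) (i : ℕ → ℂ) (ω : Om) : ℝ :=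
  if (1 - ε) * k * s ≤ X i ω ∧ X i ω ≤ (1 + ε) * k * s ∧ Y i ω ≤ Λ then Real.exp (2 * k * X i ω) else 0

section
variable {X Y : (ℕ → ℂ) → Om → ℝ} {k s ε Λ : ℝ} {i : ℕ → ℂ}

lemma Wt_nonneg (ω : Om) : 0 ≤ Wt X Y k s ε Λ i ω := by
  unfold Wt
  split_ifs
  · exact (Real.exp_pos _).le
  · exact le_rfl

lemma Wt_le (ω : Om) : Wt X Y k s ε Λ i ω ≤ Real.exp (2 * k * X i ω) := by
  unfold Wt
  split_ifs
  · exact le_rfl
  · exact (Real.exp_pos _).le

lemma Wt_le' (hk : 0 < k) (ω : Om) :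
    Wt X Y k s ε Λ i ω ≤ Real.exp (2 * (1 + ε) * (k ^ 2 * s)) := by
  unfold Wt
  split_ifs with h
  · refine Real.exp_le_exp.2 ?_
    have := mul_le_mul_of_nonneg_left h.2.1 (by positivity : (0 : ℝ) ≤ 2 * k)
    nlinarith [this]
  · exact (Real.exp_pos _).le

lemma Wt_meas (hX : Continuous (X i)) (hY : Continuous (Y i)) : Measurable (Wt X Y k s ε Λ i) := by
  unfold Wt
  refine Measurable.ite ?_ ?_ measurable_const
  · exact ((measurableSet_le measurable_const hX.measurable).inter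
      ((measurableSet_le hX.measurable measurable_const).inter
        (measurableSet_le hY.measurable measurable_const)))
  · exact (Real.continuous_exp.comp (continuous_const.mul hX)).measurable

lemma Wt_int (hX : Continuous (X i)) (hY : Continuous (Y i)) : Integrable (Wt X Y k s ε Λ i) PT := by
  refine Integrable.mono' (g := fun ω => Real.exp (2 * k * X i ω)) (int_cont (Real.continuous_exp.comp
    (continuous_const.mul hX))) (Wt_meas hX hY).aestronglyMeasurable (Filter.Eventually.of_forall fun ω => ?_)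
  rw [Real.norm_of_nonneg (Wt_nonneg ω)]
  exact Wt_le ω

lemma Wt_int2 {j : ℕ → ℂ} (hX : Continuous (X i)) (hY : Continuous (Y i)) (hX' : Continuous (X j))
    (hY' : Continuous (Y j)) :
    Integrable (fun ω => Wt X Y k s ε Λ i ω * Wt X Y k s ε Λ j ω) PT := by
  refine Integrable.mono' (g := fun ω => Real.exp (2 * k * X i ω) * Real.exp (2 * k * X j ω))
    (int_cont ((Real.continuous_exp.comp (continuous_const.mul hX)).mul
      (Real.continuous_exp.comp (continuous_const.mul hX'))))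
    ((Wt_meas hX hY).mul (Wt_meas hX' hY')).aestronglyMeasurable (Filter.Eventually.of_forall fun ω => ?_)
  rw [Real.norm_of_nonneg (mul_nonneg (Wt_nonneg ω) (Wt_nonneg ω))]
  exact mul_le_mul (Wt_le ω) (Wt_le ω) (Wt_nonneg ω) (Real.exp_pos _).le

/-- the pointwise inequality behind the lower bound -/
lemma Wt_low (hk : 0 < k) (hε : 0 < ε) (hΛ : 0 < Λ) (hY0 : ∀ ω, 0 ≤ Y i ω) (ω : Om) :
    Real.exp (2 * k * X i ω) ≤ Wt X Y k s ε Λ i ω +
      Real.exp (2 * ((1 + ε) * k) * X i ω) * Real.exp (-(2 * ε * k * ((1 + ε) * k * s))) +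
      Real.exp (2 * ((1 - ε) * k) * X i ω) * Real.exp (2 * ε * k * ((1 - ε) * k * s)) +
      Real.exp (2 * k * X i ω) * Y i ω / Λ := by
  have p1 := Wt_nonneg (X := X) (Y := Y) (k := k) (s := s) (ε := ε) (Λ := Λ) (i := i) ω
  have p2 : 0 ≤ Real.exp (2 * ((1 + ε) * k) * X i ω) * Real.exp (-(2 * ε * k * ((1 + ε) * k * s))) := by
    positivity
  have p3 : 0 ≤ Real.exp (2 * ((1 - ε) * k) * X i ω) * Real.exp (2 * ε * k * ((1 - ε) * k * s)) := by
    positivity
  have p4 : 0 ≤ Real.exp (2 * k * X i ω) * Y i ω / Λ :=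
    div_nonneg (mul_nonneg (Real.exp_pos _).le (hY0 ω)) hΛ.le
  have hεk : 0 < 2 * ε * k := by positivity
  by_cases c1 : X i ω ≤ (1 + ε) * k * s
  · by_cases c2 : (1 - ε) * k * s ≤ X i ω
    · by_cases c3 : Y i ω ≤ Λ
      · have : Wt X Y k s ε Λ i ω = Real.exp (2 * k * X i ω) := by
          unfold Wt
          rw [if_pos ⟨c2, c1, c3⟩]
        linarith
      · push Not at c3
        have : Real.exp (2 * k * X i ω) ≤ Real.exp (2 * k * X i ω) * Y i ω / Λ := by
          rw [le_div_iff₀ hΛ]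
          exact mul_le_mul_of_nonneg_left c3.le (Real.exp_pos _).le
        linarith
    · push Not at c2
      have : Real.exp (2 * k * X i ω) ≤
          Real.exp (2 * ((1 - ε) * k) * X i ω) * Real.exp (2 * ε * k * ((1 - ε) * k * s)) := by
        rw [← Real.exp_add]
        refine Real.exp_le_exp.2 ?_
        have := mul_le_mul_of_nonneg_left c2.le hεk.le
        nlinarith [this]
      linarith
  · push Not at c1
    have : Real.exp (2 * k * X i ω) ≤
        Real.exp (2 * ((1 + ε) * k) * X i ω) * Real.exp (-(2 * ε * k * ((1 + ε) * k * s))) := by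
      rw [← Real.exp_add]
      refine Real.exp_le_exp.2 ?_
      have := mul_le_mul_of_nonneg_left c1.le hεk.le
      nlinarith [this]
    linarith

end

lemma exp_small {θ : ℝ} (h0 : 0 ≤ θ) (h1 : θ ≤ 1 / 4) : Real.exp θ ≤ 1 + 2 * θ := by
  have h2 := Real.abs_exp_sub_one_sub_id_le (x := θ) (by rw [abs_of_nonneg h0]; linarith)
  have h3 := (abs_le.1 h2).2
  nlinarith

theorem ls : S_LS := by
  classical
  intro I X Y k s ε θ B Λ D bad hI hk hs hε hε4 hθ hθ4 hB hΛ hD hX hY hY0 h1 h2 h3 h4 h5 h6 h7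
  have hM0 : (0 : ℝ) < I.card := by exact_mod_cast hI.card_pos
  have hK0 : 0 < k ^ 2 * s := by positivity
  have eθ : Real.exp θ ≤ 1 + 2 * θ := exp_small hθ hθ4
  have eθ' : Real.exp θ ≤ 3 / 2 := by linarith
  have eθ0 : 1 ≤ Real.exp θ := Real.one_le_exp hθ
  have eθm : 1 - θ ≤ Real.exp (-θ) := by
    have := Real.add_one_le_exp (-θ)
    linarith
  obtain ⟨M, hM⟩ : ∃ M : ℝ, M = I.card := ⟨_, rfl⟩
  obtain ⟨K, hK⟩ : ∃ K : ℝ, K = k ^ 2 * s := ⟨_, rfl⟩
  obtain ⟨E, hE⟩ : ∃ E : ℝ, E = Real.exp K := ⟨_, rfl⟩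
  obtain ⟨δ, hδ⟩ : ∃ δ : ℝ, δ = Real.exp (-(ε ^ 2 * K)) := ⟨_, rfl⟩
  obtain ⟨b, hb⟩ : ∃ b : ℝ, b = B / Λ := ⟨_, rfl⟩
  obtain ⟨d, hd⟩ : ∃ d : ℝ, d = D * Real.exp ((1 + 2 * ε) * K) / M := ⟨_, rfl⟩
  rw [← hK, ← hM, ← hδ, ← hb, ← hd]
  rw [← hM] at hM0
  rw [← hK] at hK0
  have hE0 : 0 < E := by rw [hE]; exact Real.exp_pos _
  have hE2 : E ^ 2 = Real.exp (2 * K) := by
    rw [hE, sq, ← Real.exp_add]
    congr 1
    ring
  have hδ0 : 0 < δ := by rw [hδ]; exact Real.exp_pos _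
  have hb0 : 0 < b := by rw [hb]; positivity
  have hd0 : 0 ≤ d := by rw [hd]; positivity
  have hone : ∀ S : Set Om, PT.real S ≤ 1 := fun S => by
    exact measureReal_le_one
  by_cases hη : 1 / 2 ≤ θ + 3 * δ + b
  · refine (hone _).trans ?_
    nlinarith
  push Not at hη
  obtain ⟨W, hW⟩ : ∃ W : (ℕ → ℂ) → Om → ℝ, W = Wt X Y k s ε Λ := ⟨_, rfl⟩
  have W0 : ∀ i ω, 0 ≤ W i ω := fun i ω => by rw [hW]; exact Wt_nonneg ω
  have Wle : ∀ i ω, W i ω ≤ Real.exp (2 * k * X i ω) := fun i ω => by rw [hW]; exact Wt_le ω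
  have Wle' : ∀ i ω, W i ω ≤ Real.exp (2 * (1 + ε) * K) := fun i ω => by
    rw [hW, hK]; exact Wt_le' hk ω
  have Wint : ∀ i ∈ I, Integrable (W i) PT := fun i hi => by
    rw [hW]; exact Wt_int (hX i hi) (hY i hi)
  have WWint : ∀ i ∈ I, ∀ j ∈ I, Integrable (fun ω => W i ω * W j ω) PT := fun i hi j hj => by
    rw [hW]; exact Wt_int2 (hX i hi) (hY i hi) (hX j hj) (hY j hj)
  have cexp : ∀ (c : ℝ), ∀ i ∈ I, Continuous fun ω => Real.exp (c * X i ω) := fun c i hi =>
    Real.continuous_exp.comp (continuous_const.mul (hX i hi))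
  -- lower bound for the first moments
  have low : ∀ i ∈ I, E * (1 - (θ + 3 * δ + b)) ≤ ∫ ω, W i ω ∂PT := by
    intro i hi
    have i1 : Integrable (fun ω => Real.exp (2 * ((1 + ε) * k) * X i ω) *
        Real.exp (-(2 * ε * k * ((1 + ε) * k * s)))) PT :=
      int_cont ((cexp _ i hi).mul continuous_const)
    have i2 : Integrable (fun ω => Real.exp (2 * ((1 - ε) * k) * X i ω) *
        Real.exp (2 * ε * k * ((1 - ε) * k * s))) PT :=
      int_cont ((cexp _ i hi).mul continuous_const)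
    have i3 : Integrable (fun ω => Real.exp (2 * k * X i ω) * Y i ω / Λ) PT :=
      int_cont (((cexp _ i hi).mul (hY i hi)).div_const _)
    have e1 : ∫ ω, Real.exp (2 * k * X i ω) ∂PT ≤ ∫ ω, (W i ω +
      Real.exp (2 * ((1 + ε) * k) * X i ω) * Real.exp (-(2 * ε * k * ((1 + ε) * k * s))) +
      Real.exp (2 * ((1 - ε) * k) * X i ω) * Real.exp (2 * ε * k * ((1 - ε) * k * s)) +
      Real.exp (2 * k * X i ω) * Y i ω / Λ) ∂PT := by
      refine integral_mono (int_cont (cexp _ i hi)) ((((Wint i hi).add i1).add i2).add i3) fun ω => ?_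
      have := Wt_low (X := X) (Y := Y) (s := s) (i := i) hk hε hΛ (hY0 i) ω
      rw [hW]
      exact this
    have j1 : Integrable (fun ω => W i ω + Real.exp (2 * ((1 + ε) * k) * X i ω) *
        Real.exp (-(2 * ε * k * ((1 + ε) * k * s)))) PT := (Wint i hi).add i1
    have j2 : Integrable (fun ω => W i ω + Real.exp (2 * ((1 + ε) * k) * X i ω) *
        Real.exp (-(2 * ε * k * ((1 + ε) * k * s))) + Real.exp (2 * ((1 - ε) * k) * X i ω) *
        Real.exp (2 * ε * k * ((1 - ε) * k * s))) PT := j1.add i2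
    rw [integral_add j2 i3, integral_add j1 i2,
      integral_add (Wint i hi) i1, integral_mul_const, integral_mul_const, integral_div] at e1
    have e2 : (∫ ω, Real.exp (2 * ((1 + ε) * k) * X i ω) ∂PT) *
        Real.exp (-(2 * ε * k * ((1 + ε) * k * s))) ≤ E * (δ * Real.exp θ) := by
      calc _ ≤ Real.exp (((1 + ε) * k) ^ 2 * s + θ) * Real.exp (-(2 * ε * k * ((1 + ε) * k * s))) :=
            mul_le_mul_of_nonneg_right (h3 i hi) (Real.exp_pos _).le
        _ = E * (δ * Real.exp θ) := by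
            rw [hE, hδ, ← Real.exp_add, ← Real.exp_add, ← Real.exp_add, hK]
            congr 1
            ring
    have e3 : (∫ ω, Real.exp (2 * ((1 - ε) * k) * X i ω) ∂PT) *
        Real.exp (2 * ε * k * ((1 - ε) * k * s)) ≤ E * (δ * Real.exp θ) := by
      calc _ ≤ Real.exp (((1 - ε) * k) ^ 2 * s + θ) * Real.exp (2 * ε * k * ((1 - ε) * k * s)) :=
            mul_le_mul_of_nonneg_right (h4 i hi) (Real.exp_pos _).le
        _ = E * (δ * Real.exp θ) := by
            rw [hE, hδ, ← Real.exp_add, ← Real.exp_add, ← Real.exp_add, hK]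
            congr 1
            ring
    have e4 : (∫ ω, Real.exp (2 * k * X i ω) * Y i ω ∂PT) / Λ ≤ E * b := by
      rw [div_le_iff₀ hΛ]
      refine (h5 i hi).trans (le_of_eq ?_)
      rw [hb, hE, hK]
      field_simp
    have e5 : E * (1 - θ) ≤ ∫ ω, Real.exp (2 * k * X i ω) ∂PT := by
      refine le_trans ?_ (h1 i hi)
      have : Real.exp (k ^ 2 * s - θ) = E * Real.exp (-θ) := by
        rw [hE, ← Real.exp_add, hK]
        congr 1
      rw [this]
      exact mul_le_mul_of_nonneg_left eθm hE0.le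
    have e6 : E * (δ * Real.exp θ) ≤ E * (δ * (3 / 2)) := by gcongr
    nlinarith
  -- second moment
  have up : ∫ ω, (∑ i ∈ I, W i ω) ^ 2 ∂PT ≤ M ^ 2 * E ^ 2 * Real.exp θ * (1 + d) := by
    have e1 : ∀ ω, (∑ i ∈ I, W i ω) ^ 2 = ∑ i ∈ I, ∑ j ∈ I, W i ω * W j ω := by
      intro ω
      rw [sq, Finset.sum_mul_sum]
    simp_rw [e1]
    rw [integral_finsetSum _ fun i hi => integrable_finsetSum _ fun j hj => WWint i hi j hj]
    have e2 : ∀ i ∈ I, ∫ ω, ∑ j ∈ I, W i ω * W j ω ∂PT ≤ M * E ^ 2 * Real.exp θ * (1 + d) := by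
      intro i hi
      rw [integral_finsetSum _ fun j hj => WWint i hi j hj]
      have e3 : ∀ j ∈ I, ∫ ω, W i ω * W j ω ∂PT ≤ E ^ 2 * Real.exp θ +
          if j ∈ bad i then E ^ 2 * Real.exp θ * Real.exp ((1 + 2 * ε) * K) else 0 := by
        intro j hj
        split_ifs with hjb
        · have e4 : ∫ ω, W i ω * W j ω ∂PT ≤
              ∫ ω, Real.exp (2 * (1 + ε) * K) * Real.exp (2 * k * X j ω) ∂PT := by
            refine integral_mono (WWint i hi j hj) (int_cont (continuous_const.mul (cexp _ j hj))) fun ω => ?_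
            exact mul_le_mul (Wle' i ω) (Wle j ω) (W0 j ω) (Real.exp_pos _).le
          rw [integral_const_mul] at e4
          have e5 : Real.exp (2 * (1 + ε) * K) * ∫ ω, Real.exp (2 * k * X j ω) ∂PT ≤
              E ^ 2 * Real.exp θ * Real.exp ((1 + 2 * ε) * K) := by
            calc _ ≤ Real.exp (2 * (1 + ε) * K) * Real.exp (k ^ 2 * s + θ) :=
                  mul_le_mul_of_nonneg_left (h2 j hj) (Real.exp_pos _).le
              _ = _ := by
                rw [hE2, ← Real.exp_add, ← Real.exp_add, ← Real.exp_add, hK]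
                congr 1
                ring
          have : 0 ≤ E ^ 2 * Real.exp θ := by positivity
          linarith
        · rw [add_zero]
          have e4 : ∫ ω, W i ω * W j ω ∂PT ≤
              ∫ ω, Real.exp (2 * k * X i ω) * Real.exp (2 * k * X j ω) ∂PT := by
            refine integral_mono (WWint i hi j hj) (int_cont ((cexp _ i hi).mul (cexp _ j hj))) fun ω => ?_
            exact mul_le_mul (Wle i ω) (Wle j ω) (W0 j ω) (Real.exp_pos _).le
          refine e4.trans ((h6 i hi j hj hjb).trans (le_of_eq ?_))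
          rw [hE2, ← Real.exp_add, hK]
      refine (Finset.sum_le_sum e3).trans ?_
      rw [Finset.sum_add_distrib, Finset.sum_const, nsmul_eq_mul, ← hM, ← Finset.sum_filter, Finset.sum_const,
        nsmul_eq_mul]
      have e4 : ((I.filter fun j => j ∈ bad i).card : ℝ) ≤ D := by
        refine le_trans ?_ (h7 i hi)
        have : (I.filter fun j => j ∈ bad i).card ≤ (bad i).card :=
          Finset.card_le_card fun j hj => (Finset.mem_filter.1 hj).2
        exact_mod_cast this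
      have e5 : M * E ^ 2 * Real.exp θ * (1 + d) =
          M * (E ^ 2 * Real.exp θ) + D * (E ^ 2 * Real.exp θ * Real.exp ((1 + 2 * ε) * K)) := by
        rw [hd]
        field_simp
      rw [e5]
      have e6 : 0 ≤ E ^ 2 * Real.exp θ * Real.exp ((1 + 2 * ε) * K) := by positivity
      exact add_le_add le_rfl (mul_le_mul_of_nonneg_right e4 e6)
    refine (Finset.sum_le_sum e2).trans (le_of_eq ?_)
    rw [Finset.sum_const, nsmul_eq_mul, ← hM]
    ring
  -- Chebyshev
  obtain ⟨m, hm⟩ : ∃ m : ℝ, m = ∫ ω, ∑ i ∈ I, W i ω ∂PT := ⟨_, rfl⟩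
  have hWint : Integrable (fun ω => ∑ i ∈ I, W i ω) PT := integrable_finsetSum _ fun i hi => Wint i hi
  have hWint2 : Integrable (fun ω => (∑ i ∈ I, W i ω) ^ 2) PT := by
    have e1 : ∀ ω, (∑ i ∈ I, W i ω) ^ 2 = ∑ i ∈ I, ∑ j ∈ I, W i ω * W j ω := by
      intro ω
      rw [sq, Finset.sum_mul_sum]
    simp_rw [e1]
    exact integrable_finsetSum _ fun i hi => integrable_finsetSum _ fun j hj => WWint i hi j hj
  have hm1 : M * (E * (1 - (θ + 3 * δ + b))) ≤ m := by
    rw [hm, integral_finsetSum _ fun i hi => Wint i hi]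
    calc M * (E * (1 - (θ + 3 * δ + b))) = ∑ i ∈ I, E * (1 - (θ + 3 * δ + b)) := by
          rw [Finset.sum_const, nsmul_eq_mul, ← hM]
      _ ≤ _ := Finset.sum_le_sum low
  have hm2 : M * E / 2 ≤ m := by
    refine le_trans ?_ hm1
    have : 0 < M * E := by positivity
    nlinarith
  have hm0 : 0 < m := lt_of_lt_of_le (by positivity) hm2
  have var : ∫ ω, ((∑ i ∈ I, W i ω) - m) ^ 2 ∂PT = (∫ ω, (∑ i ∈ I, W i ω) ^ 2 ∂PT) - m ^ 2 := by
    have e1 : ∀ ω, ((∑ i ∈ I, W i ω) - m) ^ 2 = (∑ i ∈ I, W i ω) ^ 2 - 2 * m * (∑ i ∈ I, W i ω) + m ^ 2 := by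
      intro ω
      ring
    simp_rw [e1]
    have j0 : Integrable (fun ω => 2 * m * ∑ i ∈ I, W i ω) PT := hWint.const_mul _
    have j1 : Integrable (fun ω => (∑ i ∈ I, W i ω) ^ 2 - 2 * m * ∑ i ∈ I, W i ω) PT := hWint2.sub j0
    rw [integral_add j1 (integrable_const _),
      integral_sub hWint2 j0, integral_const_mul, ← hm, integral_const]
    simp only [probReal_univ, smul_eq_mul, one_mul]
    ring
  have cheb : (m / 2) ^ 2 * PT.real {ω | (m / 2) ^ 2 ≤ ((∑ i ∈ I, W i ω) - m) ^ 2} ≤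
      ∫ ω, ((∑ i ∈ I, W i ω) - m) ^ 2 ∂PT := by
    refine mul_meas_ge_le_integral_of_nonneg (Filter.Eventually.of_forall fun ω => sq_nonneg _) ?_ _
    have e1 : ∀ ω, ((∑ i ∈ I, W i ω) - m) ^ 2 = (∑ i ∈ I, W i ω) ^ 2 - 2 * m * (∑ i ∈ I, W i ω) + m ^ 2 := by
      intro ω
      ring
    simp_rw [e1]
    exact (hWint2.sub (hWint.const_mul _)).add (integrable_const _)
  -- inclusion of the events
  have incl : {ω | ((I.filter fun i => (1 - ε) * k * s ≤ X i ω ∧ Y i ω ≤ Λ).card : ℝ) <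
        M / 4 * Real.exp (-((1 + 2 * ε) * K))} ⊆ {ω | (m / 2) ^ 2 ≤ ((∑ i ∈ I, W i ω) - m) ^ 2} := by
    intro ω hω
    simp only [Set.mem_setOf_eq] at hω ⊢
    have e1 : ∑ i ∈ I, W i ω ≤
        ((I.filter fun i => (1 - ε) * k * s ≤ X i ω ∧ Y i ω ≤ Λ).card : ℝ) * Real.exp (2 * (1 + ε) * K) := by
      calc ∑ i ∈ I, W i ω ≤ ∑ i ∈ I, if (1 - ε) * k * s ≤ X i ω ∧ Y i ω ≤ Λ then
              Real.exp (2 * (1 + ε) * K) else 0 := by
            refine Finset.sum_le_sum fun i _ => ?_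
            split_ifs with hc
            · exact Wle' i ω
            · rw [hW]
              unfold Wt
              rw [if_neg fun h => hc ⟨h.1, h.2.2⟩]
        _ = _ := by
            rw [← Finset.sum_filter, Finset.sum_const, nsmul_eq_mul]
    have e2 : ∑ i ∈ I, W i ω ≤ m / 2 := by
      refine e1.trans ?_
      calc _ ≤ M / 4 * Real.exp (-((1 + 2 * ε) * K)) * Real.exp (2 * (1 + ε) * K) :=
            mul_le_mul_of_nonneg_right hω.le (Real.exp_pos _).le
        _ = M * E / 2 / 2 := by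
            rw [mul_assoc, ← Real.exp_add, hE]
            have : -((1 + 2 * ε) * K) + 2 * (1 + ε) * K = K := by ring
            rw [this]
            ring
        _ ≤ m / 2 := by linarith
    have e3 : m / 2 ≤ m - ∑ i ∈ I, W i ω := by linarith
    nlinarith
  have fin1 : PT.real {ω | ((I.filter fun i => (1 - ε) * k * s ≤ X i ω ∧ Y i ω ≤ Λ).card : ℝ) <
        M / 4 * Real.exp (-((1 + 2 * ε) * K))} ≤
      PT.real {ω | (m / 2) ^ 2 ≤ ((∑ i ∈ I, W i ω) - m) ^ 2} := measureReal_mono incl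
  refine fin1.trans ?_
  obtain ⟨P, hP⟩ : ∃ P : ℝ, P = PT.real {ω | (m / 2) ^ 2 ≤ ((∑ i ∈ I, W i ω) - m) ^ 2} := ⟨_, rfl⟩
  have hP0 : 0 ≤ P := by rw [hP]; exact measureReal_nonneg
  rw [← hP] at cheb ⊢
  rw [var] at cheb
  -- numbers
  obtain ⟨η, hηe⟩ : ∃ η : ℝ, η = θ + 3 * δ + b := ⟨_, rfl⟩
  rw [← hηe] at hη hm1
  have hη0 : 0 ≤ η := by rw [hηe]; positivity
  have hsq : (M * E) ^ 2 * (1 - 2 * η) ≤ m ^ 2 := by
    have h8 : 0 ≤ M * (E * (1 - η)) := by
      have : 0 ≤ 1 - η := by linarith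
      positivity
    have h9 : (M * (E * (1 - η))) ^ 2 ≤ m ^ 2 := by
      exact pow_le_pow_left₀ h8 hm1 2
    refine le_trans ?_ h9
    have : 0 ≤ (M * E) ^ 2 := by positivity
    nlinarith [mul_nonneg this (sq_nonneg η)]
  have hme : (M * E) ^ 2 / 4 ≤ m ^ 2 := by
    have h8 : 0 ≤ M * E / 2 := by positivity
    have h9 := pow_le_pow_left₀ h8 hm2 2
    nlinarith
  have h10 : (M * E) ^ 2 / 16 * P ≤ (M * E) ^ 2 * (Real.exp θ * (1 + d) - (1 - 2 * η)) := by
    calc (M * E) ^ 2 / 16 * P ≤ (m / 2) ^ 2 * P := by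
          refine mul_le_mul_of_nonneg_right ?_ hP0
          nlinarith
      _ ≤ (∫ ω, (∑ i ∈ I, W i ω) ^ 2 ∂PT) - m ^ 2 := cheb
      _ ≤ M ^ 2 * E ^ 2 * Real.exp θ * (1 + d) - (M * E) ^ 2 * (1 - 2 * η) := by linarith
      _ = _ := by ring
  have h11 : P ≤ 16 * (Real.exp θ * (1 + d) - (1 - 2 * η)) := by
    have hpos : 0 < (M * E) ^ 2 := by positivity
    have : (M * E) ^ 2 * P ≤ (M * E) ^ 2 * (16 * (Real.exp θ * (1 + d) - (1 - 2 * η))) := by linarith
    exact le_of_mul_le_mul_left this hpos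
  have h12 : Real.exp θ * (1 + d) ≤ 1 + 2 * θ + 3 / 2 * d := by
    have : Real.exp θ * d ≤ 3 / 2 * d := mul_le_mul_of_nonneg_right eθ' hd0
    nlinarith
  rw [hηe] at h11
  nlinarith

end Pool.Agent.Q211.FG
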