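import Pool.Agent.Q283.FG.Stm3

/-! Project FG (helper283), job STB (helper211): the relation of Steinberg with the sign
(template: `Q124.FT.stb` by helper124). -/

set_option autoImplicit false

namespace Pool.Agent.Q211.FG

open NumberField IsDedekindDomain

/-- JOB STB -/
theorem stb : Pool.Agent.Q283.FG.S_STB := by
  intro F _ _ ζ hζ t s ht v
  have neg2 : ∀ x : ZMod 2, -x = x := by decide
  have mul := ht.mul v
  have sym : ∀ a c, a ≠ 0 → c ≠ 0 → t v a c = t v c a := ht.sym v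
  have mulc : ∀ a b c, a ≠ 0 → b ≠ 0 → c ≠ 0 → t v a (b * c) = t v a b + t v a c := by
    intro a b c ha hb hc
    rw [sym a _ ha (mul_ne_zero hb hc), mul b c a hb hc ha, sym b a hb ha, sym c a hc ha]
  have onec : ∀ a, a ≠ 0 → t v a 1 = 0 := by
    intro a ha
    have h := mulc a 1 1 ha one_ne_zero one_ne_zero
    rw [mul_one] at h
    exact left_eq_add.1 h
  have invc : ∀ a c, a ≠ 0 → c ≠ 0 → t v a c⁻¹ = t v a c := by
    intro a c ha hc
    have h := mulc a c c⁻¹ ha hc (inv_ne_zero hc)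
    rw [mul_inv_cancel₀ hc, onec a ha] at h
    rw [← neg2 (t v a c)]
    exact eq_neg_of_add_eq_zero_right h.symm
  have diag : ∀ a, a ≠ 0 → t v a a = t v a (-1) := by
    intro a ha
    have h1 := ht.nrm v (-a) a 0 1 (neg_ne_zero.2 ha) ha (by ring)
    have e4 : -a = -1 * a := by ring
    rw [e4, mul (-1) a a (by norm_num) ha ha] at h1
    rw [sym a (-1) ha (by norm_num), ← neg2 (t v (-1) a)]
    exact eq_neg_of_add_eq_zero_right h1
  refine ⟨diag, ?_⟩
  intro A B C hA hB' hC hAB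
  have hAC : A * C⁻¹ ≠ 0 := mul_ne_zero hA (inv_ne_zero hC)
  have hBC : B * C⁻¹ ≠ 0 := mul_ne_zero hB' (inv_ne_zero hC)
  have hC' := inv_ne_zero hC
  have h := ht.nrm v (A * C⁻¹) (B * C⁻¹) 1 1 hAC hBC (by
    rw [← hAB] at hC ⊢
    field_simp
    ring)
  rw [mulc _ B C⁻¹ hAC hB' hC', invc _ C hAC hC, mul A C⁻¹ B hA hC' hB', mul A C⁻¹ C hA hC' hC,
    sym C⁻¹ B hC' hB', invc B C hB' hC, sym C⁻¹ C hC' hC, invc C C hC hC, diag C hC] at h
  have h2 : ∀ x y z w : ZMod 2, x + y + (z + w) = 0 → x = z + y + w := by decide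
  exact h2 _ _ _ _ h

end Pool.Agent.Q211.FG
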