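import Pool.Agent.Q283.FG.Stm1

/-!
# Project FG, job TRM: means, from the tables to the ensemble
-/

set_option autoImplicit false

namespace Pool.Agent.Q211.FG

open NumberField IsDedekindDomain Filter Topology Finset
open Pool.Agent.Q283.LQ (Sm Box Nest nS)
open Pool.Agent.Q7.LK
open Pool.Agent.Q283.FG
open scoped Classical

theorem nest_mono' : ∀ (k : ℕ) (P Q : (Fin k → ℕ) → Prop), (∀ X, P X → Q X) → Nest k P → Nest k Q
  | 0, _, _, h, hP => h _ hP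
  | k + 1, P, Q, h, hP => nest_mono' k _ _ (fun X hX => by
      filter_upwards [hX] with x hx using h _ hx) hP

/-- there is a table -/
theorem tab_pos {f k : ℕ} (hk : 1 ≤ k) (ψ : Fin f → ZMod 2) :
    0 < (univ.filter (fun τ : Tab 2 f k => ∑ j, (1 : ZMod 2) • τ.1 j = ψ)).card := by
  rw [Finset.card_pos]
  refine ⟨(fun j => if j = ⟨0, hk⟩ then ψ else 0, 0), mem_filter.2 ⟨mem_univ _, ?_⟩⟩
  simp only [one_smul]
  rw [Finset.sum_ite_eq' univ (⟨0, hk⟩ : Fin k) (fun _ => ψ), if_pos (mem_univ _)]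

/-- TRM -/
theorem trm (hTRF : S_TRF) : S_TRM := by
  intro F _ _ ζ hζ y f u r π g hB D0 ψ w hD0 hN k hk n C hC
  set 𝒯 := univ.filter (fun τ : Tab 2 f k => ∑ j, (1 : ZMod 2) • τ.1 j = ψ) with h𝒯
  have e1 : ∀ i : DecidablePred (fun τ : Tab 2 f k => ∑ j, (1 : ZMod 2) • τ.1 j = ψ),
      @Finset.filter _ (fun τ : Tab 2 f k => ∑ j, (1 : ZMod 2) • τ.1 j = ψ) i univ = 𝒯 := by
    intro i
    rw [h𝒯]
    ext τ
    simp only [mem_filter]
  have e2 : ∀ (P : Tab 2 f k → Prop) (i : DecidablePred (fun τ : Tab 2 f k => ∑ j, (1 : ZMod 2) • τ.1 j = ψ ∧ P τ))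
      (i' : DecidablePred P),
      @Finset.filter _ (fun τ : Tab 2 f k => ∑ j, (1 : ZMod 2) • τ.1 j = ψ ∧ P τ) i univ =
        @Finset.filter _ P i' 𝒯 := by
    intro P i i'
    rw [h𝒯]
    ext τ
    simp only [mem_filter, mem_univ, true_and]
  have hT0 : (0 : ℝ) < (𝒯.card : ℝ) := by
    have h0 := tab_pos hk ψ
    rw [e1] at h0
    exact_mod_cast h0
  -- the values
  set M : Finset ℕ := univ.image n with hM
  set S : ℝ := ∑ m ∈ M, (m : ℝ) with hS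
  have hS0 : 0 ≤ S := Finset.sum_nonneg fun m _ => Nat.cast_nonneg m
  have hε : (0 : ℝ) < 1 / (S + 1) := by positivity
  have hmain := hTRF F ζ hζ y f u r π g hB D0 ψ w hD0 hN k hk (1 / (S + 1)) hε
  refine nest_mono' k _ _ ?_ hmain
  rintro X ⟨hfin, hpos, -, hP⟩ B N hB1 hB2 hB3
  set T := {q ∈ (Box y X : Set (Fin k → HeightOneSpectrum (𝓞 F))) | ∃ D, FR y D0 q D} with hT
  -- the fibers
  have h1 : ∑ q ∈ B, (N q : ℝ) = ∑ m ∈ M, (m : ℝ) * ((B.filter fun q => N q = m).card : ℝ) := by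
    have h2 : ∀ q ∈ B, N q ∈ M := by
      intro q hq
      obtain ⟨τ, -, h3⟩ := hB3 q hq
      rw [h3, hM]
      exact mem_image_of_mem n (mem_univ τ)
    rw [← Finset.sum_fiberwise_of_maps_to h2]
    refine Finset.sum_congr rfl fun m _ => ?_
    rw [Finset.sum_congr rfl (g := fun _ => (m : ℝ)) fun q hq => by rw [(mem_filter.1 hq).2],
      Finset.sum_const, nsmul_eq_mul, mul_comm]
  have h2 : ∀ m ∈ M, ((B.filter fun q => N q = m).card : ℝ) * (𝒯.card : ℝ) ≤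
      ((𝒯.filter fun τ => n τ = m).card : ℝ) * (T.ncard : ℝ) + 1 / (S + 1) * (T.ncard : ℝ) * (𝒯.card : ℝ) := by
    intro m _
    have h3 := (abs_le.1 (hP fun τ => n τ = m)).2
    rw [e1, e2 (fun τ => n τ = m) _ (fun τ => instDecidableEqNat (n τ) m)] at h3
    have h4 : (B.filter fun q => N q = m).card ≤
        {q ∈ (Box y X : Set (Fin k → HeightOneSpectrum (𝓞 F))) | (∃ D, FR y D0 q D) ∧
            ∃ τ, Tb ζ u π τ q ∧ n τ = m}.ncard := by
      rw [← Set.ncard_coe_finset]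
      refine Set.ncard_le_ncard ?_ (hfin.subset fun q hq => hq.1)
      intro q hq
      have hq' := mem_filter.1 (Finset.mem_coe.1 hq)
      obtain ⟨τ, h5, h6⟩ := hB3 q hq'.1
      exact ⟨hB1 q hq'.1, hB2 q hq'.1, τ, h5, h6 ▸ hq'.2⟩
    have h5 : ((B.filter fun q => N q = m).card : ℝ) ≤
        ({q ∈ (Box y X : Set (Fin k → HeightOneSpectrum (𝓞 F))) | (∃ D, FR y D0 q D) ∧
            ∃ τ, Tb ζ u π τ q ∧ n τ = m}.ncard : ℝ) := by exact_mod_cast h4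
    have h6 := mul_le_mul_of_nonneg_right h5 hT0.le
    linarith
  have h3 : ∑ m ∈ M, (m : ℝ) * ((𝒯.filter fun τ => n τ = m).card : ℝ) = ∑ τ ∈ 𝒯, (n τ : ℝ) := by
    have h4 : ∀ τ ∈ 𝒯, n τ ∈ M := fun τ _ => mem_image_of_mem n (mem_univ τ)
    rw [← Finset.sum_fiberwise_of_maps_to h4]
    refine Finset.sum_congr rfl fun m _ => ?_
    rw [Finset.sum_congr rfl (g := fun _ => (m : ℝ)) fun q hq => by rw [(mem_filter.1 hq).2],
      Finset.sum_const, nsmul_eq_mul, mul_comm]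
  have h4 : (∑ q ∈ B, (N q : ℝ)) * (𝒯.card : ℝ) ≤ ((C + 1) * (T.ncard : ℝ)) * (𝒯.card : ℝ) := by
    rw [h1, Finset.sum_mul]
    have h5 : ∀ m ∈ M, (m : ℝ) * ((B.filter fun q => N q = m).card : ℝ) * (𝒯.card : ℝ) ≤
        (m : ℝ) * ((𝒯.filter fun τ => n τ = m).card : ℝ) * (T.ncard : ℝ) +
          (m : ℝ) * (1 / (S + 1) * (T.ncard : ℝ) * (𝒯.card : ℝ)) := by
      intro m hm
      have h6 := mul_le_mul_of_nonneg_left (h2 m hm) (Nat.cast_nonneg (α := ℝ) m)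
      linarith
    refine (Finset.sum_le_sum h5).trans ?_
    rw [Finset.sum_add_distrib, ← Finset.sum_mul, h3, ← Finset.sum_mul]
    have h6 : S * (1 / (S + 1) * (T.ncard : ℝ) * (𝒯.card : ℝ)) ≤ (T.ncard : ℝ) * (𝒯.card : ℝ) := by
      have h7 : S * (1 / (S + 1)) ≤ 1 := by
        rw [mul_one_div, div_le_one (by linarith)]
        linarith
      have h8 : 0 ≤ (T.ncard : ℝ) * (𝒯.card : ℝ) := by positivity
      calc S * (1 / (S + 1) * (T.ncard : ℝ) * (𝒯.card : ℝ)) = (S * (1 / (S + 1))) * ((T.ncard : ℝ) * (𝒯.card : ℝ)) := by ring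
        _ ≤ 1 * ((T.ncard : ℝ) * (𝒯.card : ℝ)) := mul_le_mul_of_nonneg_right h7 h8
        _ = _ := one_mul _
    have h9 := mul_le_mul_of_nonneg_right hC (Nat.cast_nonneg (α := ℝ) T.ncard)
    calc (∑ τ ∈ 𝒯, (n τ : ℝ)) * (T.ncard : ℝ) + S * (1 / (S + 1) * (T.ncard : ℝ) * (𝒯.card : ℝ))
        ≤ C * (𝒯.card : ℝ) * (T.ncard : ℝ) + (T.ncard : ℝ) * (𝒯.card : ℝ) := add_le_add h9 h6
      _ = _ := by ring
  exact le_of_mul_le_mul_right h4 hT0

end Pool.Agent.Q211.FG
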